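import Pool.Agent.H3.BI.Stm1

/-!
# Project BD, part GFP: the generating function to the right of `1`
-/

set_option autoImplicit false

open scoped ENNReal
open Finset MeasureTheory

namespace Pool.Agent.H28.BD.Gfp

open Pool.Agent.H3.BI

theorem exp_le_quad (t : ℝ) (ht : 0 ≤ t) : Real.exp t ≤ 1 + t + t ^ 2 * Real.exp t := by
  have h1 : Real.exp t - 1 ≤ t * Real.exp t := by
    have h := Real.add_one_le_exp (-t)
    have h2 : Real.exp (-t) * Real.exp t = 1 := by rw [← Real.exp_add]; simp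
    have h3 := mul_le_mul_of_nonneg_right h (Real.exp_pos t).le
    rw [h2] at h3
    linarith
  nlinarith [mul_le_mul_of_nonneg_left h1 ht]

theorem hasSum_one (ν : PMF ℕ) : HasSum (fun k : ℕ => (ν k).toReal) 1 := by
  have h1 : Summable fun k : ℕ => (ν k).toReal :=
    ENNReal.summable_toReal (by rw [PMF.tsum_coe]; exact ENNReal.one_ne_top)
  have h2 : ∑' k : ℕ, (ν k).toReal = 1 := by
    rw [← ENNReal.tsum_toReal_eq (fun a => PMF.apply_ne_top ν a), PMF.tsum_coe]
    simp
  rw [← h2]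
  exact h1.hasSum

theorem nu_mul_ofReal (ν : PMF ℕ) (k : ℕ) (t : ℝ) :
    ν k * ENNReal.ofReal t = ENNReal.ofReal ((ν k).toReal * t) := by
  rw [ENNReal.ofReal_mul ENNReal.toReal_nonneg, ENNReal.ofReal_toReal (PMF.apply_ne_top ν k)]

/-- Comparison of the generating function with a sum of reals. -/
theorem tsum_le_of (ν : PMF ℕ) (f g : ℕ → ℝ) (S : ℝ) (hfg : ∀ k, f k ≤ g k)
    (hg : ∀ k, 0 ≤ g k) (hS : HasSum (fun k : ℕ => (ν k).toReal * g k) S) :
    ∑' k : ℕ, ν k * ENNReal.ofReal (f k) ≤ ENNReal.ofReal S := by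
  calc ∑' k : ℕ, ν k * ENNReal.ofReal (f k)
      ≤ ∑' k : ℕ, ν k * ENNReal.ofReal (g k) :=
        ENNReal.tsum_le_tsum fun k => mul_le_mul_right (ENNReal.ofReal_le_ofReal (hfg k)) _
    _ = ∑' k : ℕ, ENNReal.ofReal ((ν k).toReal * g k) := by simp only [nu_mul_ofReal]
    _ = ENNReal.ofReal (∑' k : ℕ, (ν k).toReal * g k) := by
        rw [ENNReal.ofReal_tsum_of_nonneg _ hS.summable]
        intro k
        exact mul_nonneg ENNReal.toReal_nonneg (hg k)
    _ = ENNReal.ofReal S := by rw [hS.tsum_eq]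

/-- **Part GFP.** -/
theorem t_GFP : S_GFP := by
  intro ν hν
  obtain ⟨lam, hlam, hsum⟩ := hν.expo
  set E := ∑' k : ℕ, (ν k).toReal * Real.exp (lam * k) with hE
  have hE0 : 0 ≤ E := tsum_nonneg fun k => mul_nonneg ENNReal.toReal_nonneg (Real.exp_pos _).le
  refine ⟨max 1 (8 / lam ^ 2 * E), min 1 (lam / 2), le_max_left _ _, by positivity,
    min_le_left _ _, ?_⟩
  intro s hs0 hs1
  have hs2 : s ≤ lam / 2 := hs1.trans (min_le_right _ _)
  have hkey : ∀ k : ℕ, (1 + s) ^ k ≤ 1 + k * s + s ^ 2 * (8 / lam ^ 2) * Real.exp (lam * k) := by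
    intro k
    have h1 : (1 + s) ^ k ≤ Real.exp (k * s) := by
      have h := Real.add_one_le_exp s
      calc (1 + s) ^ k ≤ (Real.exp s) ^ k := pow_le_pow_left₀ (by positivity) (by linarith) _
        _ = Real.exp (k * s) := by rw [← Real.exp_nat_mul]
    have h2 := exp_le_quad (k * s) (by positivity)
    have h3 : Real.exp (k * s) ≤ Real.exp (lam / 2 * k) := by
      apply Real.exp_le_exp.2
      rw [mul_comm]
      exact mul_le_mul_of_nonneg_right hs2 (Nat.cast_nonneg _)
    have h4 : (k : ℝ) ^ 2 ≤ 8 / lam ^ 2 * Real.exp (lam / 2 * k) := by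
      have h := Real.quadratic_le_exp_of_nonneg (x := lam / 2 * k) (by positivity)
      have h5 : (lam / 2 * k) ^ 2 / 2 ≤ Real.exp (lam / 2 * k) := by
        have : 0 ≤ lam / 2 * k := by positivity
        linarith
      have h6 : (k : ℝ) ^ 2 = 8 / lam ^ 2 * ((lam / 2 * k) ^ 2 / 2) := by
        field_simp
        ring
      rw [h6]
      exact mul_le_mul_of_nonneg_left h5 (by positivity)
    have h5 : Real.exp (lam * k) = Real.exp (lam / 2 * k) * Real.exp (lam / 2 * k) := by
      rw [← Real.exp_add]; congr 1; ring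
    have h6 : (k * s) ^ 2 * Real.exp (k * s) ≤
        s ^ 2 * (8 / lam ^ 2) * Real.exp (lam * k) := by
      calc (k * s) ^ 2 * Real.exp (k * s) = s ^ 2 * ((k : ℝ) ^ 2 * Real.exp (k * s)) := by ring
        _ ≤ s ^ 2 * ((8 / lam ^ 2 * Real.exp (lam / 2 * k)) * Real.exp (lam / 2 * k)) := by
            apply mul_le_mul_of_nonneg_left _ (by positivity)
            exact mul_le_mul h4 h3 (Real.exp_pos _).le (by positivity)
        _ = _ := by rw [h5]; ring
    linarith
  have hS : HasSum (fun k : ℕ => (ν k).toReal *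
      (1 + k * s + s ^ 2 * (8 / lam ^ 2) * Real.exp (lam * k)))
      (1 + s + s ^ 2 * (8 / lam ^ 2) * E) := by
    have h1 := hasSum_one ν
    have h2 := hν.mean.mul_right s
    have h3 := hsum.hasSum.mul_left (s ^ 2 * (8 / lam ^ 2))
    have h4 := (h1.add h2).add h3
    rw [one_mul] at h4
    refine h4.congr_fun ?_ |> fun h => h
    intro k
    ring
  refine (tsum_le_of ν _ _ _ hkey (fun k => by positivity) hS).trans ?_
  apply ENNReal.ofReal_le_ofReal
  have : s ^ 2 * (8 / lam ^ 2) * E ≤ max 1 (8 / lam ^ 2 * E) * s ^ 2 := by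
    rw [mul_assoc, mul_comm]
    exact mul_le_mul_of_nonneg_right (le_max_right _ _) (sq_nonneg _)
  linarith

end Pool.Agent.H28.BD.Gfp
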