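import Pool.Agent.H3.BI.Stm2

/-!
# Project BD, part INN: the function for the inner bound
-/

set_option autoImplicit false

open scoped ENNReal
open Finset MeasureTheory

namespace Pool.Agent.H28.BD.Inn

open Pool.Agent.H3.BI

/-! ## Norms -/

/-- The site as a vector of the Euclidean space. -/
noncomputable def toE {d : ℕ} (x : Site d) : EuclideanSpace ℝ (Fin d) :=
  WithLp.toLp 2 fun i => (x i : ℝ)

theorem nrm_eq {d : ℕ} (x : Site d) : nrm x = ‖toE x‖ := by
  rw [EuclideanSpace.norm_eq]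
  unfold nrm nsq toE
  simp

theorem toE_sub {d : ℕ} (x z : Site d) : toE (x - z) = toE x - toE z := by
  unfold toE
  ext i
  simp

theorem nrm_sub_le {d : ℕ} (x z : Site d) : nrm (x - z) ≤ nrm x + nrm z := by
  rw [nrm_eq, nrm_eq, nrm_eq, toE_sub]
  exact norm_sub_le _ _

theorem nrm_le_add {d : ℕ} (x z : Site d) : nrm z ≤ nrm x + nrm (x - z) := by
  rw [nrm_eq, nrm_eq, nrm_eq, toE_sub]
  have := norm_sub_norm_le (toE z) (toE x)
  rw [norm_sub_rev] at this
  linarith

theorem nsq_pos_of_ne {d : ℕ} (x : Site d) (hx : x ≠ 0) : 1 ≤ nsq x := by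
  obtain ⟨i, hi⟩ : ∃ i, x i ≠ 0 := by
    by_contra h
    push Not at h
    exact hx (funext h)
  have h1 : (1 : ℝ) ≤ (x i : ℝ) ^ 2 := by
    have : (1 : ℤ) ≤ x i ^ 2 := by
      have := sq_nonneg (x i)
      have h2 : x i ^ 2 ≠ 0 := pow_ne_zero 2 hi
      omega
    exact_mod_cast this
  exact h1.trans (Finset.single_le_sum (f := fun i => (x i : ℝ) ^ 2)
    (fun _ _ => sq_nonneg _) (Finset.mem_univ i))

theorem nsq_neg {d : ℕ} (x : Site d) : nsq (-x) = nsq x := by
  unfold nsq
  simp

/-! ## Powers -/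

theorem tangent (S E p : ℝ) (hS : 0 < S) (hE : 0 < E) (hp : 0 ≤ p) :
    S ^ (-p) - p * (E - S) * S ^ (-p - 1) ≤ E ^ (-p) := by
  have hES : 0 < E / S := by positivity
  have h1 : E ^ (-p) = S ^ (-p) * (E / S) ^ (-p) := by
    rw [← Real.mul_rpow hS.le hES.le]
    congr 1
    field_simp
  have h3 : 1 - p * (E / S - 1) ≤ (E / S) ^ (-p) := by
    rw [Real.rpow_def_of_pos hES]
    have h4 := Real.add_one_le_exp (Real.log (E / S) * (-p))
    have h5 := Real.log_le_sub_one_of_pos hES
    nlinarith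
  have h4 : S ^ (-p - 1) = S ^ (-p) / S := Real.rpow_sub_one hS.ne' _
  have h5 : 0 < S ^ (-p) := Real.rpow_pos_of_pos hS _
  calc S ^ (-p) - p * (E - S) * S ^ (-p - 1) = S ^ (-p) * (1 - p * (E / S - 1)) := by
        rw [h4]; field_simp
    _ ≤ S ^ (-p) * (E / S) ^ (-p) := mul_le_mul_of_nonneg_left h3 h5.le
    _ = _ := h1.symm

theorem half_rpow (S p : ℝ) (hS : 0 ≤ S) : (S / 2) ^ (-p) = 2 ^ p * S ^ (-p) := by
  rw [Real.div_rpow hS (by norm_num), Real.rpow_neg (by norm_num : (0 : ℝ) ≤ 2), div_inv_eq_mul,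
    mul_comm]

theorem rpow_neg_le (S p : ℝ) (hS : 1 ≤ S) (hp : 0 ≤ p) :
    S ^ (-p) ≤ 2 ^ p * (S + 1) ^ (-p) := by
  have h1 : S ^ (-p) ≤ ((S + 1) / 2) ^ (-p) :=
    Real.rpow_le_rpow_of_nonpos (by positivity) (by linarith) (by linarith)
  rwa [half_rpow _ _ (by linarith)] at h1

/-! ## Averages -/

theorem PP_mono' {d : ℕ} (f g : Site d → ℝ) (x : Site d) (h : ∀ y, f y ≤ g y) :
    PP f x ≤ PP g x := by
  unfold PP
  exact div_le_div_of_nonneg_right (Finset.sum_le_sum fun e _ => h _) (by positivity)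

theorem PP_sub {d : ℕ} (f g : Site d → ℝ) (x : Site d) :
    PP (fun y => f y - g y) x = PP f x - PP g x := by
  unfold PP
  rw [Finset.sum_sub_distrib, sub_div]

theorem PP_zero {d : ℕ} (x : Site d) : PP (fun _ => (0 : ℝ)) x = 0 := by
  unfold PP
  simp

theorem PP_comp_sub {d : ℕ} (k : Site d → ℝ) (z x : Site d) :
    PP (fun y => k (y - z)) x = PP k (x - z) := by
  unfold PP
  congr 1
  refine Finset.sum_congr rfl fun e _ => ?_
  change k (x + uvec e - z) = k (x - z + uvec e)
  rw [add_sub_right_comm]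

/-- The image kernel is superharmonic. -/
theorem img_super {d : ℕ} (a₀ : ℝ)
    (hspr : ∀ (a : ℝ) (w : Fin d → ℝ), a₀ ≤ a →
      PR (fun v => (qr v + a) ^ (-bt d)) w ≤ (qr w + a) ^ (-bt d))
    (a c : ℝ) (ha : a₀ ≤ a) (ha0 : 0 ≤ a) (hc0 : 0 < c) (hc1 : c ≤ 1) (E : Site d → ℝ)
    (zs : Fin d → ℝ) (hE : ∀ x : Site d, E x = c * qr (fun i => (x i : ℝ) - zs i)) (x : Site d) :
    PP (fun y => (E y + a) ^ (-bt d)) x ≤ (E x + a) ^ (-bt d) := by
  have hac : a₀ ≤ a / c := by
    refine ha.trans ?_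
    rw [le_div_iff₀ hc0]
    nlinarith
  have hqr : ∀ v : Fin d → ℝ, 0 ≤ qr v := fun v => Finset.sum_nonneg fun _ _ => sq_nonneg _
  have h1 : ∀ y : Site d, (E y + a) ^ (-bt d) =
      c ^ (-bt d) * (qr (fun i => (y i : ℝ) - zs i) + a / c) ^ (-bt d) := by
    intro y
    rw [← Real.mul_rpow hc0.le (add_nonneg (hqr _) (by positivity)), hE]
    congr 1
    field_simp
  have h2 : PP (fun y => (E y + a) ^ (-bt d)) x =
      c ^ (-bt d) * PR (fun v => (qr v + a / c) ^ (-bt d)) (fun i => (x i : ℝ) - zs i) := by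
    unfold PP PR
    rw [mul_div_assoc', Finset.mul_sum]
    congr 1
    refine Finset.sum_congr rfl fun e _ => ?_
    have hvec : (fun i => (((x + uvec e) i : ℤ) : ℝ) - zs i) =
        (fun i => (x i : ℝ) - zs i) + rvec e := by
      funext i
      simp only [Pi.add_apply, uvec, rvec]
      by_cases hi : i = e.1
      · subst hi
        simp only [Pi.single_eq_same]
        split_ifs <;> push_cast <;> ring
      · rw [Pi.single_eq_of_ne hi, Pi.single_eq_of_ne hi]
        push_cast
        ring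
    change (E (x + uvec e) + a) ^ (-bt d) = c ^ (-bt d) * (qr ((fun i => (x i : ℝ) - zs i) +
      rvec e) + a / c) ^ (-bt d)
    rw [h1, hvec]
  rw [h2, h1]
  exact mul_le_mul_of_nonneg_left (hspr _ _ hac) (Real.rpow_nonneg hc0.le _)

/-! ## The part -/

set_option maxHeartbeats 1000000 in
/-- **Part INN.** -/
theorem t_INN : S_INN := by
  intro hGEO hSPR hKER hIT hLAT d c₀ hd hc₀ hc₀1
  obtain ⟨Cg, hCg, hgeo⟩ := hGEO d c₀ hd hc₀ hc₀1
  obtain ⟨a₀, ha₀, hspr, -⟩ := hSPR d hd
  obtain ⟨Ck, k, hCk, hk0, hkC, hksub, hklo, hkhi⟩ := hKER d hd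
  obtain ⟨a₁, ha₁, hit⟩ := hIT d hd
  obtain ⟨Cl, hCl, hlat⟩ := hLAT d hd
  set a : ℝ := max a₀ a₁ with ha
  have haa0 : a₀ ≤ a := le_max_left _ _
  have haa1 : a₁ ≤ a := le_max_right _ _
  have ha3 : 3 ≤ a := ha₀.trans haa0
  obtain ⟨C₁, hC₁, hit⟩ := hit a a c₀ haa1 haa1 hc₀ hc₀1
  have hd3 : (3 : ℝ) ≤ d := by exact_mod_cast hd
  set β : ℝ := bt d with hβ
  have hβv : β = ((d : ℝ) - 2) / 2 := rfl
  have hβ0 : 1 / 2 ≤ β := by rw [hβv]; linarith
  have hβ00 : 0 < β := by linarith
  have hβd : -β - 1 = -((d : ℝ) / 2) := by rw [hβv]; ring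
  set P : ℝ := 2 ^ ((d : ℝ) / 2) with hP
  have hP0 : 0 < P := by positivity
  have hPβ : (2 : ℝ) ^ β ≤ P := by
    rw [hP]
    apply Real.rpow_le_rpow_of_exponent_le (by norm_num)
    rw [hβv]; linarith
  set K1 : ℝ := Ck + β * (Cg + a) with hK1
  set K2 : ℝ := Ck + β * (2 * Cg + a) with hK2
  set K3 : ℝ := Ck + β * a + β * (2 * a) * P with hK3
  have hCk0 : 0 ≤ Ck := by linarith
  have hCg0 : 0 ≤ Cg := by linarith
  have hCl0 : 0 ≤ Cl := by linarith
  have ha0 : 0 ≤ a := by linarith
  have hK10 : 0 ≤ K1 := by positivity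
  have hK20 : 0 ≤ K2 := by positivity
  have hK30 : 0 ≤ K3 := by positivity
  set C : ℝ := 2 + C₁ + Cg * (a + 2 * Ck) + 2 * a * Cg + (1 + Ck) * P + K1 * P +
    3 * (K3 * P) * Cl + 3 * (K2 * P) * Cl + a with hC
  have p1 : 0 ≤ Cg * (a + 2 * Ck) := by positivity
  have p2 : 0 ≤ 2 * a * Cg := by positivity
  have p3 : 0 ≤ (1 + Ck) * P := by positivity
  have p4 : 0 ≤ K1 * P := by positivity
  have p5 : 0 ≤ 3 * (K3 * P) * Cl := by positivity
  have p6 : 0 ≤ 3 * (K2 * P) * Cl := by positivity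
  have q0 : 2 ≤ C := by linarith
  have q1 : Cg * (a + 2 * Ck) ≤ C := by linarith
  have q2 : 2 * a * Cg ≤ C := by linarith
  have q3 : (1 + Ck) * P ≤ C := by linarith
  have q4 : K1 * P ≤ C := by linarith
  have q5 : C₁ + 3 * (K3 * P) * Cl + 3 * (K2 * P) * Cl ≤ C := by linarith
  have q6 : a + 2 ≤ C := by linarith
  have q7 : C₁ ≤ C := by linarith
  have q8 : 1 ≤ P := Real.one_le_rpow (by norm_num) (by positivity)
  have q9 : Ck ≤ K1 := by
    have : 0 ≤ β * (Cg + a) := by positivity
    linarith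
  clear_value C K1 K2 K3
  clear hC
  refine ⟨C, by linarith, ?_⟩
  intro N z hN hG
  have hN0 : 0 < N := by linarith
  have hN1 : 1 ≤ N := by linarith
  have hgap : C ≤ N - nrm z := by have := hG.hi; linarith
  have hgap1 : 1 ≤ N - nrm z := by linarith
  have hz0 : 0 < nrm z := lt_of_lt_of_le (by positivity) hG.lo
  have hzN : nrm z ≤ N := by linarith
  have hnz : nsq z = nrm z ^ 2 := (nrm_sq z).symm
  have hzne : z ≠ 0 := by
    rintro rfl
    apply hz0.ne'
    unfold nrm nsq
    simp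
  obtain ⟨zs, hEz, hin, hout⟩ := hgeo N z ⟨hG.lo, by linarith⟩
  obtain ⟨hit0, hit1⟩ := hit N z (by linarith) ⟨hG.lo, by linarith⟩
  have hqr : ∀ v : Fin d → ℝ, 0 ≤ qr v := fun v => Finset.sum_nonneg fun _ _ => sq_nonneg _
  have hE0 : ∀ x : Site d, 0 ≤ Ez N z x := fun x => by
    rw [hEz]
    exact mul_nonneg (div_nonneg (nsq_nonneg _) (sq_nonneg _)) (hqr _)
  set h : Site d → ℝ := fun x => (Ez N z x + a) ^ (-β) with hh
  have hh0 : ∀ x, 0 ≤ h x := fun x => Real.rpow_nonneg (by have := hE0 x; linarith) _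
  have hhsup : ∀ x, PP h x ≤ h x := by
    intro x
    refine img_super a₀ hspr a (nsq z / N ^ 2) haa0 ha0 ?_ ?_ (Ez N z) zs hEz x
    · rw [hnz]; positivity
    · rw [hnz, div_le_one (by positivity)]
      exact pow_le_pow_left₀ hz0.le hzN 2
  -- the upper bound for the difference
  have hv : ∀ x : Site d, x ≠ z → k (x - z) - h x ≤
      (Ck + β * (Ez N z x - nsq (x - z) + a)) * nsq (x - z) ^ (-((d : ℝ) / 2)) := by
    intro x hx
    have hxz : x - z ≠ 0 := sub_ne_zero.2 hx
    have hS1 := nsq_pos_of_ne _ hxz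
    have h1 := hkhi _ hxz
    have h2 := tangent (nsq (x - z)) (Ez N z x + a) β (by linarith) (by have := hE0 x; linarith)
      hβ00.le
    rw [hβd] at h1 h2
    have h3 : h x = (Ez N z x + a) ^ (-β) := rfl
    rw [h3]
    have h5 : β * (Ez N z x + a - nsq (x - z)) * nsq (x - z) ^ (-((d : ℝ) / 2)) =
      β * (Ez N z x - nsq (x - z) + a) * nsq (x - z) ^ (-((d : ℝ) / 2)) := by ring
    rw [h5] at h2
    rw [add_mul]
    linarith
  have hSd : ∀ x : Site d, x ≠ z → nsq (x - z) ^ (-((d : ℝ) / 2)) ≤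
      P * (nsq (x - z) + 1) ^ (-((d : ℝ) / 2)) := by
    intro x hx
    exact rpow_neg_le _ _ (nsq_pos_of_ne _ (sub_ne_zero.2 hx)) (by positivity)
  have hSd0 : ∀ x : Site d, 0 ≤ nsq (x - z) ^ (-((d : ℝ) / 2)) := fun x =>
    Real.rpow_nonneg (nsq_nonneg _) _
  have hSd1 : ∀ x : Site d, 0 ≤ (nsq (x - z) + 1) ^ (-((d : ℝ) / 2)) := fun x =>
    Real.rpow_nonneg (by have := nsq_nonneg (x - z); linarith) _
  set u : Site d → ℝ := fun x => max 0 (k (x - z) - h x) with hu
  have hudef : ∀ x, u x = max 0 (k (x - z) - h x) := fun x => rfl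
  have hu0 : ∀ x, 0 ≤ u x := fun x => le_max_left _ _
  have huk : ∀ x, u x ≤ k (x - z) := by
    intro x
    rw [hudef]
    exact max_le (hk0 _) (by have := hh0 x; linarith)
  have huz : u z ≤ Ck := (huk z).trans (hkC _)
  have hnsqz : nsq (z - z) + 1 = 1 := by
    rw [sub_self]
    unfold nsq
    simp
  -- the bound for the defect
  have hD : ∀ x : Site d, Ez N z x - nsq (x - z) ≤
      Cg * (N - nrm z) * (N - nrm z + nrm (x - z)) := by
    intro x
    have hnn := nrm_nonneg (x - z)
    rcases le_total (nrm x) N with hx | hx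
    · refine (hin x hx).2.2.1.trans ?_
      apply mul_le_mul_of_nonneg_left _ (by positivity)
      have := nrm_le_add x z
      linarith
    · have h1 := hout x hx
      have h2 : 0 ≤ (N - nrm z) * (nrm x - N) := mul_nonneg (by linarith) (by linarith)
      have h3 : Ez N z x - nsq (x - z) ≤ 0 := by
        have h5 : 0 ≤ nsq (x - z) - Ez N z x :=
          nonneg_of_mul_nonneg_right (h2.trans h1) (by linarith)
        linarith
      have h4 : 0 ≤ Cg * (N - nrm z) * (N - nrm z + nrm (x - z)) := by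
        apply mul_nonneg (mul_nonneg hCg0 (by linarith)) (by linarith)
      linarith
  -- outside
  have houtz : ∀ x : Site d, N + 1 ≤ nrm x → u x = 0 := by
    intro x hx
    have hxz : x ≠ z := by
      rintro rfl
      linarith
    rw [hudef, max_eq_left]
    refine (hv x hxz).trans ?_
    apply mul_nonpos_of_nonpos_of_nonneg _ (hSd0 x)
    have h1 := hout x (by linarith)
    have h2 : (N - nrm z) ≤ (N - nrm z) * (nrm x - N) :=
      le_mul_of_one_le_right (by linarith) (by linarith)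
    have h3 : Cg * (a + 2 * Ck) ≤ Cg * (nsq (x - z) - Ez N z x) := by linarith
    have h4 : a + 2 * Ck ≤ nsq (x - z) - Ez N z x := le_of_mul_le_mul_left h3 (by linarith)
    have h5 : β * (Ez N z x - nsq (x - z) + a) ≤ β * (-(2 * Ck)) :=
      mul_le_mul_of_nonneg_left (by linarith) hβ00.le
    have h6 : 1 / 2 * (2 * Ck) ≤ β * (2 * Ck) := mul_le_mul_of_nonneg_right hβ0 (by linarith)
    linarith
  -- the second bound
  have hb2 : ∀ x : Site d, u x ≤
      K1 * P * (N - nrm z) * (N - nrm z + nrm (x - z)) * (nsq (x - z) + 1) ^ (-((d : ℝ) / 2)) := by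
    intro x
    have hnn := nrm_nonneg (x - z)
    have hX1 : 1 ≤ (N - nrm z) * (N - nrm z + nrm (x - z)) :=
      one_le_mul_of_one_le_of_one_le hgap1 (by linarith)
    by_cases hx : x = z
    · subst hx
      rw [hnsqz, Real.one_rpow, mul_one]
      have : Ck ≤ K1 * P := q9.trans (le_mul_of_one_le_right hK10 q8)
      refine huz.trans (this.trans ?_)
      rw [mul_assoc (K1 * P)]
      exact le_mul_of_one_le_right p4 hX1
    · have h1 := hv x hx
      have h2 := hD x
      set X := (N - nrm z) * (N - nrm z + nrm (x - z)) with hX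
      have h3 : Ck + β * (Ez N z x - nsq (x - z) + a) ≤ K1 * X := by
        have : Ez N z x - nsq (x - z) ≤ Cg * X := by rw [hX]; linarith
        have h6 : a ≤ a * X := le_mul_of_one_le_right ha0 hX1
        have h4 : β * (Ez N z x - nsq (x - z) + a) ≤ β * (Cg * X + a * X) :=
          mul_le_mul_of_nonneg_left (by linarith) hβ00.le
        have h5 : Ck ≤ Ck * X := le_mul_of_one_le_right hCk0 hX1
        have h7 : K1 * X = Ck * X + β * (Cg * X + a * X) := by rw [hK1]; ring
        linarith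
      have h4 : (Ck + β * (Ez N z x - nsq (x - z) + a)) * nsq (x - z) ^ (-((d : ℝ) / 2)) ≤
          K1 * X * (P * (nsq (x - z) + 1) ^ (-((d : ℝ) / 2))) :=
        mul_le_mul h3 (hSd x hx) (hSd0 x) (mul_nonneg hK10 (by linarith))
      rw [hudef]
      apply max_le
      · have := hSd1 x
        have hX0 : 0 ≤ X := by linarith
        rw [mul_assoc (K1 * P)]
        positivity
      · refine (h1.trans h4).trans (le_of_eq ?_)
        rw [hX]
        ring
  -- the shell
  have hshell : ∀ x : Site d, N - 2 ≤ nrm x → u x ≤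
      K2 * P * (N - nrm z) * (nsq (x - z) + 1) ^ (-((d : ℝ) / 2)) := by
    intro x hxN
    have hx : x ≠ z := by
      rintro rfl
      linarith
    have hDs : Ez N z x - nsq (x - z) ≤ 2 * Cg * (N - nrm z) := by
      rcases le_total (nrm x) N with hx' | hx'
      · refine (hin x hx').2.2.1.trans ?_
        have h0 : 0 ≤ Cg * (N - nrm z) := mul_nonneg hCg0 (by linarith)
        have h1 : Cg * (N - nrm z) * (N - nrm x) ≤ Cg * (N - nrm z) * 2 :=
          mul_le_mul_of_nonneg_left (by linarith) h0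
        linarith
      · have h1 := hout x hx'
        have h2 : 0 ≤ (N - nrm z) * (nrm x - N) := mul_nonneg (by linarith) (by linarith)
        have h3 : Ez N z x - nsq (x - z) ≤ 0 := by
          have h5 : 0 ≤ nsq (x - z) - Ez N z x :=
            nonneg_of_mul_nonneg_right (h2.trans h1) (by linarith)
          linarith
        have h4 : 0 ≤ 2 * Cg * (N - nrm z) := by positivity
        linarith
    have h1 := hv x hx
    have h3 : Ck + β * (Ez N z x - nsq (x - z) + a) ≤ K2 * (N - nrm z) := by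
      have h6 : a ≤ a * (N - nrm z) := le_mul_of_one_le_right ha0 hgap1
      have h4 : β * (Ez N z x - nsq (x - z) + a) ≤ β * (2 * Cg * (N - nrm z) + a * (N - nrm z)) :=
        mul_le_mul_of_nonneg_left (by linarith) hβ00.le
      have h5 : Ck ≤ Ck * (N - nrm z) := le_mul_of_one_le_right hCk0 hgap1
      have h7 : K2 * (N - nrm z) = Ck * (N - nrm z) +
        β * (2 * Cg * (N - nrm z) + a * (N - nrm z)) := by rw [hK2]; ring
      linarith
    have h4 : (Ck + β * (Ez N z x - nsq (x - z) + a)) * nsq (x - z) ^ (-((d : ℝ) / 2)) ≤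
        K2 * (N - nrm z) * (P * (nsq (x - z) + 1) ^ (-((d : ℝ) / 2))) :=
      mul_le_mul h3 (hSd x hx) (hSd0 x) (mul_nonneg hK20 (by linarith))
    rw [hudef]
    apply max_le
    · have := hSd1 x
      have hX0 : 0 ≤ N - nrm z := by linarith
      positivity
    · refine (h1.trans h4).trans (le_of_eq ?_)
      ring
  -- the interior
  have hinner : ∀ x : Site d, x ≠ z → nrm x ≤ N - 2 → u x ≤ uS d a a N z x +
      K3 * P * (nsq (x - z) + 1) ^ (-((d : ℝ) / 2)) := by
    intro x hx hxN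
    have hxz : x - z ≠ 0 := sub_ne_zero.2 hx
    have hS1 := nsq_pos_of_ne _ hxz
    obtain ⟨g1, g2, -, -⟩ := hin x (by linarith)
    have hus := hit0 x (by linarith)
    -- `Ez` is large
    have hE2 : 2 * a ≤ Ez N z x := by
      have h1 : 2 * a * Cg ≤ (N - nrm z) ^ 2 := by
        have : (N - nrm z) ≤ (N - nrm z) ^ 2 := by
          rw [sq]
          exact le_mul_of_one_le_right (by linarith) hgap1
        linarith
      have h2 : Cg * (2 * a) ≤ Cg * Ez N z x := by linarith
      exact le_of_mul_le_mul_left h2 (by linarith)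
    have e1 := hkhi _ hxz
    have e2 := tangent (nsq (x - z)) (nsq (x - z) + a) β (by linarith) (by linarith) hβ00.le
    have e3 := tangent (Ez N z x - a) (Ez N z x + a) β (by linarith) (by linarith) hβ00.le
    rw [hβd] at e1 e2 e3
    have e4 : (Ez N z x - a) ^ (-((d : ℝ) / 2)) ≤ P * nsq (x - z) ^ (-((d : ℝ) / 2)) := by
      have f1 : (Ez N z x - a) ^ (-((d : ℝ) / 2)) ≤ (nsq (x - z) / 2) ^ (-((d : ℝ) / 2)) :=
        Real.rpow_le_rpow_of_nonpos (by linarith) (by linarith) (by linarith)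
      rwa [half_rpow _ _ (by linarith)] at f1
    have hSn := hSd0 x
    have e5 : k (x - z) - h x ≤ uS d a a N z x + K3 * nsq (x - z) ^ (-((d : ℝ) / 2)) := by
      have h3 : h x = (Ez N z x + a) ^ (-β) := rfl
      have h4 : uS d a a N z x = (nsq (x - z) + a) ^ (-β) - (Ez N z x - a) ^ (-β) := rfl
      rw [h3, h4, hK3]
      have h5 : β * (Ez N z x + a - (Ez N z x - a)) * (Ez N z x - a) ^ (-((d : ℝ) / 2)) ≤
          β * (2 * a) * (P * nsq (x - z) ^ (-((d : ℝ) / 2))) := by
        have : Ez N z x + a - (Ez N z x - a) = 2 * a := by ring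
        rw [this]
        exact mul_le_mul_of_nonneg_left e4 (by positivity)
      have h6 : β * (nsq (x - z) + a - nsq (x - z)) = β * a := by ring
      rw [h6] at e2
      have h7 : (Ck + β * a + β * (2 * a) * P) * nsq (x - z) ^ (-((d : ℝ) / 2)) =
        Ck * nsq (x - z) ^ (-((d : ℝ) / 2)) + β * a * nsq (x - z) ^ (-((d : ℝ) / 2)) +
        β * (2 * a) * (P * nsq (x - z) ^ (-((d : ℝ) / 2))) := by ring
      rw [h7]
      linarith
    rw [hudef]
    have hmul : K3 * nsq (x - z) ^ (-((d : ℝ) / 2)) ≤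
        K3 * P * (nsq (x - z) + 1) ^ (-((d : ℝ) / 2)) := by
      rw [mul_assoc]
      exact mul_le_mul_of_nonneg_left (hSd x hx) hK30
    apply max_le
    · have : 0 ≤ K3 * nsq (x - z) ^ (-((d : ℝ) / 2)) := by positivity
      linarith
    · linarith
  -- the value at the origin
  have hEz0 : Ez N z 0 = N ^ 2 := by
    unfold Ez
    have h1 : nsq (0 : Site d) = 0 := by unfold nsq; simp
    rw [zero_sub, nsq_neg, h1]
    field_simp
    ring
  have hnz1 : 1 ≤ nsq z := nsq_pos_of_ne z hzne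
  have hu0' : (nsq z) ^ (-β) - (N ^ 2 + a) ^ (-β) ≤ u 0 := by
    have h1 := hklo (-z) (neg_ne_zero.2 hzne)
    rw [nsq_neg] at h1
    have h2 : u 0 = max 0 (k (0 - z) - h 0) := rfl
    have h3 : h 0 = (N ^ 2 + a) ^ (-β) := by
      change (Ez N z 0 + a) ^ (-β) = _
      rw [hEz0]
    rw [h2, h3, zero_sub]
    exact le_trans (by linarith) (le_max_right _ _)
  have hNa : a < N ^ 2 := by
    have : N ≤ N ^ 2 := by
      rw [sq]
      exact le_mul_of_one_le_right hN0.le hN1
    linarith
  have husu : uS d a a N z 0 ≤ u 0 := by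
    refine le_trans ?_ hu0'
    have h4 : uS d a a N z 0 = (nsq (0 - z) + a) ^ (-β) - (Ez N z 0 - a) ^ (-β) := rfl
    rw [h4, hEz0, zero_sub, nsq_neg]
    have h5 : (nsq z + a) ^ (-β) ≤ nsq z ^ (-β) :=
      Real.rpow_le_rpow_of_nonpos (by linarith) (by linarith) (by linarith)
    have h6 : (N ^ 2 + a) ^ (-β) ≤ (N ^ 2 - a) ^ (-β) :=
      Real.rpow_le_rpow_of_nonpos (by linarith) (by linarith) (by linarith)
    linarith
  refine ⟨u, ⟨hu0, ?_, ?_, houtz, ?_, ?_, ?_⟩⟩
  · -- b1
    intro x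
    by_cases hx : x = z
    · subst hx
      rw [hnsqz, Real.one_rpow, mul_one]
      have : (1 + Ck) ≤ (1 + Ck) * P := le_mul_of_one_le_right (by linarith) q8
      linarith
    · have hxz : x - z ≠ 0 := sub_ne_zero.2 hx
      have hS1 := nsq_pos_of_ne _ hxz
      have h1 := hkhi _ hxz
      have h2 : nsq (x - z) ^ (-β - 1) ≤ nsq (x - z) ^ (-β) :=
        Real.rpow_le_rpow_of_exponent_le hS1 (by linarith)
      have h3 : nsq (x - z) ^ (-β) ≤ P * (nsq (x - z) + 1) ^ (-β) := by
        refine (rpow_neg_le _ β hS1 hβ00.le).trans ?_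
        exact mul_le_mul_of_nonneg_right hPβ (Real.rpow_nonneg (by linarith) _)
      have h4 : 0 ≤ (nsq (x - z) + 1) ^ (-β) := Real.rpow_nonneg (by linarith) _
      calc u x ≤ k (x - z) := huk x
        _ ≤ (1 + Ck) * nsq (x - z) ^ (-β) := by
            have := mul_le_mul_of_nonneg_left h2 hCk0
            rw [add_mul, one_mul]
            linarith
        _ ≤ (1 + Ck) * (P * (nsq (x - z) + 1) ^ (-β)) :=
            mul_le_mul_of_nonneg_left h3 (by positivity)
        _ = (1 + Ck) * P * (nsq (x - z) + 1) ^ (-β) := by ring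
        _ ≤ C * (nsq (x - z) + 1) ^ (-β) := mul_le_mul_of_nonneg_right (by linarith) h4
  · -- b2
    intro x
    refine (hb2 x).trans ?_
    apply mul_le_mul_of_nonneg_right _ (hSd1 x)
    have hnn := nrm_nonneg (x - z)
    apply mul_le_mul_of_nonneg_right _ (by linarith)
    exact mul_le_mul_of_nonneg_right (by linarith) (by linarith)
  · -- sub
    intro x hx
    have hxz : x - z ≠ 0 := sub_ne_zero.2 hx
    change max 0 (k (x - z) - h x) ≤ PP u x
    apply max_le
    · have := PP_mono' (fun _ => (0 : ℝ)) u x hu0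
      rwa [PP_zero] at this
    · have h1 := PP_mono' (fun y => k (y - z) - h y) u x (fun y => le_max_right _ _)
      rw [PP_sub, PP_comp_sub] at h1
      have h2 := hksub _ hxz
      have h3 := hhsup x
      linarith
  · -- zero
    have h1 := tangent (N ^ 2) (nsq z) β (by positivity) (by linarith) hβ00.le
    have h2 : (N ^ 2 + a) ^ (-β) ≤ (N ^ 2) ^ (-β) :=
      Real.rpow_le_rpow_of_nonpos (by positivity) (by linarith) (by linarith)
    rw [hβd] at h1
    have h3 : ((N ^ 2 : ℝ)) ^ (-((d : ℝ) / 2)) = (N ^ d)⁻¹ := by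
      rw [Real.rpow_neg (by positivity), ← Real.rpow_natCast N 2, ← Real.rpow_mul hN0.le]
      congr 1
      rw [← Real.rpow_natCast N d]
      congr 1
      push_cast
      ring
    rw [h3] at h1
    have h4 : β * (N ^ 2 - nsq z) * (N ^ d)⁻¹ ≤ u 0 := by linarith
    refine le_trans ?_ h4
    have h5 : (N - nrm z) * N ≤ N ^ 2 - nsq z := by
      rw [hnz]
      have : nrm z * nrm z ≤ nrm z * N := mul_le_mul_of_nonneg_left hzN hz0.le
      nlinarith only [this]
    have hNd : N ^ d = N ^ (d - 1) * N := by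
      rw [← pow_succ]
      congr 1
      omega
    have hNd1 : 0 < N ^ (d - 1) := by positivity
    calc (N - nrm z) / (C * N ^ (d - 1)) ≤ (N - nrm z) / (2 * N ^ (d - 1)) := by
          apply div_le_div_of_nonneg_left (by linarith) (by positivity)
          exact mul_le_mul_of_nonneg_right (by linarith) hNd1.le
      _ = 1 / 2 * ((N - nrm z) * N) * (N ^ d)⁻¹ := by
          rw [hNd]
          field_simp
      _ ≤ β * (N ^ 2 - nsq z) * (N ^ d)⁻¹ := by
          apply mul_le_mul_of_nonneg_right _ (by positivity)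
          apply mul_le_mul hβ0 h5 (mul_nonneg (by linarith) hN0.le) hβ00.le
  · -- tot
    classical
    have hlog0 : 0 ≤ Real.log N := Real.log_nonneg hN1
    -- splitting
    have hsplit : ∑ x ∈ (bF d (N + 1)).erase z, u x ≤
        ∑ x ∈ (bF d (N + 1)).erase z,
          ((if nrm x ≤ N - 2 then uS d a a N z x else 0) +
            (K3 * P + K2 * P * (N - nrm z)) * (nsq (x - z) + 1) ^ (-((d : ℝ) / 2))) := by
      apply Finset.sum_le_sum
      intro x hx
      have hxz := Finset.ne_of_mem_erase hx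
      have hs := hSd1 x
      have hq1 : 0 ≤ K3 * P * (nsq (x - z) + 1) ^ (-((d : ℝ) / 2)) := by positivity
      have hq2 : 0 ≤ K2 * P * (N - nrm z) * (nsq (x - z) + 1) ^ (-((d : ℝ) / 2)) := by positivity
      rw [add_mul]
      split_ifs with hxN
      · have := hinner x hxz hxN
        linarith
      · have := hshell x (by linarith)
        linarith
    have hpart1 : ∑ x ∈ (bF d (N + 1)).erase z, (if nrm x ≤ N - 2 then uS d a a N z x else 0) ≤
        ∑ x ∈ bF d (N - 2), uS d a a N z x := by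
      rw [← Finset.sum_filter]
      apply Finset.sum_le_sum_of_subset_of_nonneg
      · intro x hx
        rw [Finset.mem_filter] at hx
        rw [mem_bF]
        exact hx.2
      · intro x hx _
        rw [mem_bF] at hx
        exact hit0 x (by linarith)
    have hpart2 : ∑ x ∈ (bF d (N + 1)).erase z, (nsq (x - z) + 1) ^ (-((d : ℝ) / 2)) ≤
        Cl * (3 * (1 + Real.log N)) := by
      have h1 := ((hlat (3 * N) z ((bF d (N + 1)).erase z) (by linarith)).1 (by
        intro y hy
        have := (mem_bF _ _).1 (Finset.mem_of_mem_erase hy)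
        have h2 := nrm_sub_le y z
        linarith)).2.2
      refine h1.trans ?_
      apply mul_le_mul_of_nonneg_left _ hCl0
      rw [Real.log_mul (by norm_num) hN0.ne']
      have : Real.log 3 ≤ 2 := by
        have := Real.log_le_sub_one_of_pos (show (0 : ℝ) < 3 by norm_num)
        linarith
      linarith
    rw [Finset.sum_add_distrib, ← Finset.mul_sum] at hsplit
    have hom : 0 ≤ om d * N ^ d := mul_nonneg ENNReal.toReal_nonneg (by positivity)
    have h2 : om d * N ^ d * uS d a a N z 0 ≤ om d * N ^ d * u 0 :=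
      mul_le_mul_of_nonneg_left husu hom
    have h3 : (K3 * P + K2 * P * (N - nrm z)) *
        ∑ x ∈ (bF d (N + 1)).erase z, (nsq (x - z) + 1) ^ (-((d : ℝ) / 2)) ≤
        (K3 * P + K2 * P * (N - nrm z)) * (Cl * (3 * (1 + Real.log N))) :=
      mul_le_mul_of_nonneg_left hpart2 (by positivity)
    have h4 : K3 * P ≤ K3 * P * (N - nrm z) := le_mul_of_one_le_right (by positivity) hgap1
    have h5 : (K3 * P + K2 * P * (N - nrm z)) * (Cl * (3 * (1 + Real.log N))) ≤
        (K3 * P * (N - nrm z) + K2 * P * (N - nrm z)) * (Cl * (3 * (1 + Real.log N))) :=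
      mul_le_mul_of_nonneg_right (by linarith) (by positivity)
    have h6 : C₁ * (N - nrm z) * (1 + Real.log N) +
        (K3 * P * (N - nrm z) + K2 * P * (N - nrm z)) * (Cl * (3 * (1 + Real.log N))) ≤
        C * (N - nrm z) * (1 + Real.log N) := by
      have h7 : C₁ * (N - nrm z) * (1 + Real.log N) +
        (K3 * P * (N - nrm z) + K2 * P * (N - nrm z)) * (Cl * (3 * (1 + Real.log N))) =
        (C₁ + 3 * (K3 * P) * Cl + 3 * (K2 * P) * Cl) * (N - nrm z) * (1 + Real.log N) := by ring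
      rw [h7]
      apply mul_le_mul_of_nonneg_right _ (by linarith)
      apply mul_le_mul_of_nonneg_right _ (by linarith)
      linarith
    linarith

end Pool.Agent.H28.BD.Inn
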