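import Pool.Agent.H3.BI.Stm1

/-!
# Project BD, part UNI: the uniformly chosen order gives the same law
-/

set_option autoImplicit false

open scoped ENNReal
open Finset MeasureTheory

namespace Pool.Agent.H28.BD.Uni

open Pool.Agent.H3.BI

/-- Expectation of a nonnegative function. -/
noncomputable def ex {α : Type} (p : PMF α) (g : α → ℝ≥0∞) : ℝ≥0∞ := ∑' a, p a * g a

theorem ex_bind {α β : Type} (p : PMF α) (q : α → PMF β) (g : β → ℝ≥0∞) :
    ex (p.bind q) g = ex p (fun a => ex (q a) g) := by
  unfold ex
  simp only [PMF.bind_apply]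
  simp_rw [← ENNReal.tsum_mul_right, ← ENNReal.tsum_mul_left]
  rw [ENNReal.tsum_comm]
  simp_rw [mul_assoc]

theorem ex_pure {α : Type} (a : α) (g : α → ℝ≥0∞) : ex (PMF.pure a) g = g a := by
  classical
  unfold ex
  rw [tsum_eq_single a]
  · simp
  · intro b hb
    simp [PMF.pure_apply, hb]

theorem ex_uniformOfFintype {α : Type} [Fintype α] [Nonempty α] (g : α → ℝ≥0∞) :
    ex (PMF.uniformOfFintype α) g = (∑ a, g a) / (Fintype.card α : ℝ≥0∞) := by
  unfold ex
  rw [tsum_fintype]
  simp only [PMF.uniformOfFintype_apply]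
  rw [← Finset.mul_sum, mul_comm, ← div_eq_mul_inv]

theorem ex_uniformOfFinset_const {α : Type} (s : Finset α) (hs : s.Nonempty) (g : α → ℝ≥0∞)
    (c : ℝ≥0∞) (h : ∀ a ∈ s, g a = c) : ex (PMF.uniformOfFinset s hs) g = c := by
  classical
  unfold ex
  have : ∀ a, PMF.uniformOfFinset s hs a * g a = PMF.uniformOfFinset s hs a * c := by
    intro a
    by_cases ha : a ∈ s
    · rw [h a ha]
    · rw [PMF.uniformOfFinset_apply_of_notMem hs ha]
      simp
  simp_rw [this]
  rw [ENNReal.tsum_mul_right, PMF.tsum_coe, one_mul]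

theorem rings_succ' {d : ℕ} [NeZero d] (ν : PMF ℕ) (s : Conf d) (n : ℕ) :
    rings ν s (n + 1) = (ring ν s).bind (fun s' => rings ν s' n) := by
  induction n generalizing s with
  | zero =>
    simp only [rings]
    rw [PMF.pure_bind, PMF.bind_pure]
  | succ n ih =>
    rw [rings, ih, PMF.bind_bind]
    rfl

theorem ex_stepsP {d : ℕ} [NeZero d] (x : Site d) (k : ℕ) (s : Conf d) (g : Cf d → ℝ≥0∞) :
    ex (stepsP x k s) (fun s' => g (s'.agg, s'.moving)) =
      steps Set.univ x k g (s.agg, s.moving) := by
  induction k generalizing s with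
  | zero =>
    simp only [stepsP, steps]
    rw [ex_pure]
  | succ k ih =>
    simp only [stepsP, steps]
    rw [ex_bind, ex_uniformOfFintype]
    simp only [ih]
    congr 1
    · refine Finset.sum_congr rfl fun e _ => ?_
      congr 1
      unfold arrive arr
      by_cases h : x + uvec e ∈ s.agg
      · simp [h]
      · simp [h]
    · simp [mul_comm]

theorem rings_eq {d : ℕ} [NeZero d] (hd : 3 ≤ d) (hS : S_SYM) (ν : PMF ℕ) (B : Finset (Site d))
    (n : ℕ) (s : Conf d) :
    rings ν s n ⟨B, []⟩ = Ph ν Set.univ (ind fun C => C = B) n (s.agg, s.moving) := by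
  classical
  induction n generalizing s with
  | zero =>
    obtain ⟨A, L⟩ := s
    simp only [rings, Ph]
    rw [PMF.pure_apply]
    by_cases hL : L = []
    · subst hL
      by_cases hA : A = B
      · subst hA; simp [ind]
      · have : (⟨B, []⟩ : Conf d) ≠ ⟨A, []⟩ := by
          intro h
          injection h with h1 h2
          exact hA h1.symm
        simp [ind, hA, this]
    · have : (⟨B, []⟩ : Conf d) ≠ ⟨A, L⟩ := by
        intro h
        injection h with h1 h2
        exact hL h2.symm
      simp [hL, this]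
  | succ n ih =>
    obtain ⟨A, L⟩ := s
    rw [rings_succ', PMF.bind_apply]
    simp only [ih]
    change ex (ring ν ⟨A, L⟩) (fun s' => Ph ν Set.univ (ind fun C => C = B) n
      (s'.agg, s'.moving)) = _
    by_cases hL : L = []
    · subst hL
      have : ring ν (⟨A, []⟩ : Conf d) = PMF.pure ⟨A, []⟩ := by
        simp [ring]
      rw [this, ex_pure]
      simp
    · unfold ring
      rw [dif_neg (by simpa using hL)]
      rw [ex_bind]
      apply ex_uniformOfFinset_const
      intro i hi
      rw [Finset.mem_range] at hi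
      simp only at hi
      rw [ex_bind]
      simp only [ex_stepsP]
      have hperm : L.Perm (L.getD i 0 :: L.eraseIdx i) := by
        rw [List.getD_eq_getElem _ _ hi]
        exact (List.getElem_cons_eraseIdx_perm hi).symm
      rw [hS d ν Set.univ _ (n + 1) A L _ hd hperm, Ph_succ_cons]
      rfl

theorem steps_zero {d : ℕ} (D : Set (Site d)) (x : Site d) (B : Finset (Site d))
    (F : Cf d → ℝ≥0∞) (hF : ∀ p, ¬ p.1 ⊆ B → F p = 0) (k : ℕ) (p : Cf d) (hp : ¬ p.1 ⊆ B) :
    steps D x k F p = 0 := by
  induction k generalizing p with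
  | zero => exact hF p hp
  | succ k ih =>
    simp only [steps]
    rw [Finset.sum_eq_zero, ENNReal.zero_div]
    intro e _
    apply ih
    unfold arr
    split_ifs with h1 h2
    · exact hp
    · exact hp
    · intro h
      exact hp ((Finset.subset_insert _ _).trans h)

theorem steps_univ {d : ℕ} (D : Set (Site d)) (x : Site d) (B : Finset (Site d))
    (hB : (B : Set (Site d)) ⊆ D) (F G : Cf d → ℝ≥0∞) (hF : ∀ p, ¬ p.1 ⊆ B → F p = 0)
    (hG : ∀ p, ¬ p.1 ⊆ B → G p = 0) (hFG : ∀ p, F p = G p) (k : ℕ) (p : Cf d) :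
    steps Set.univ x k F p = steps D x k G p := by
  induction k generalizing p with
  | zero => exact hFG p
  | succ k ih =>
    by_cases hp : p.1 ⊆ B
    · simp only [steps]
      congr 1
      refine Finset.sum_congr rfl fun e _ => ?_
      rw [ih]
      congr 1
      unfold arr
      by_cases h : x + uvec e ∈ p.1
      · have : x + uvec e ∈ D := hB (hp h)
        simp [h, this]
      · simp [h]
    · rw [steps_zero Set.univ x B F hF _ _ hp, steps_zero D x B G hG _ _ hp]

theorem Ph_univ {d : ℕ} (hd : 3 ≤ d) (hBAS : S_BAS) (ν : PMF ℕ) (D : Set (Site d))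
    (B : Finset (Site d)) (hB : (B : Set (Site d)) ⊆ D) (n : ℕ) (p : Cf d) :
    Ph ν Set.univ (ind fun C => C = B) n p = Ph ν D (ind fun C => C = B) n p := by
  have h6 := fun (D : Set (Site d)) => (hBAS d ν hd).2.2.2.2.2.1 D
  induction n generalizing p with
  | zero =>
    simp only [Ph]
  | succ n ih =>
    obtain ⟨A, L⟩ := p
    cases L with
    | nil => simp
    | cons x L =>
      rw [Ph_succ_cons, Ph_succ_cons]
      unfold top
      refine tsum_congr fun k => ?_
      congr 1
      refine steps_univ D x B hB _ _ ?_ ?_ ih k _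
      · rintro ⟨A', L'⟩ h
        exact h6 _ n A' L' B h
      · rintro ⟨A', L'⟩ h
        exact h6 _ n A' L' B h

/-- **Part UNI.** -/
theorem t_UNI : S_UNI := by
  intro hBAS hSYM d _ ν D A B hd hB
  unfold launch KD
  refine iSup_congr fun n => ?_
  rw [rings_eq hd hSYM]
  exact Ph_univ hd hBAS ν D B hB n _

end Pool.Agent.H28.BD.Uni
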