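import Pool.Agent.H3.BI.Stm1

/-!
# Project BD, part UPP: the exponential supermartingale for the upper tail
-/

set_option autoImplicit false

open scoped ENNReal
open Finset MeasureTheory

namespace Pool.Agent.H28.BD.Upp

open Pool.Agent.H3.BI

theorem avg_ofReal {d : ℕ} (hd : 3 ≤ d) (f : Dir d → ℝ) (hf : ∀ e, 0 ≤ f e) :
    (∑ e : Dir d, ENNReal.ofReal (f e)) / (2 * d) = ENNReal.ofReal ((∑ e : Dir d, f e) / (2 * d)) := by
  have hd' : (0 : ℝ) < 2 * d := by positivity
  rw [ENNReal.ofReal_div_of_pos hd', ENNReal.ofReal_sum_of_nonneg fun e _ => hf e]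
  congr 1
  rw [ENNReal.ofReal_mul (by norm_num)]
  simp

theorem avg_mono {d : ℕ} (f g : Dir d → ℝ≥0∞) (h : ∀ e, f e ≤ g e) :
    (∑ e : Dir d, f e) / (2 * d : ℝ≥0∞) ≤ (∑ e : Dir d, g e) / (2 * d) :=
  ENNReal.div_le_div_right (Finset.sum_le_sum fun e _ => h e) _

theorem exp_le_quad1 (t : ℝ) (h0 : 0 ≤ t) (h1 : t ≤ 1) : Real.exp t ≤ 1 + t + t ^ 2 := by
  have h := Real.abs_exp_sub_one_sub_id_le (x := t) (by rw [abs_of_nonneg h0]; exact h1)
  have := (abs_le.1 h).2
  linarith

theorem PP_mono {d : ℕ} (f g : Site d → ℝ) (x : Site d) (h : ∀ e : Dir d, f (x + uvec e) ≤ g (x + uvec e)) :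
    PP f x ≤ PP g x := by
  unfold PP
  exact div_le_div_of_nonneg_right (Finset.sum_le_sum fun e _ => h e) (by positivity)

theorem PP_add {d : ℕ} (f g : Site d → ℝ) (x : Site d) :
    PP (fun y => f y + g y) x = PP f x + PP g x := by
  unfold PP
  rw [Finset.sum_add_distrib, add_div]

theorem PP_mul {d : ℕ} (c : ℝ) (f : Site d → ℝ) (x : Site d) :
    PP (fun y => c * f y) x = c * PP f x := by
  unfold PP
  rw [← Finset.mul_sum, mul_div_assoc]

theorem PP_const {d : ℕ} (hd : 3 ≤ d) (c : ℝ) (x : Site d) :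
    PP (fun _ => c) x = c := by
  unfold PP
  have hd' : (0 : ℝ) < 2 * d := by positivity
  rw [Finset.sum_const, Finset.card_univ]
  simp only [Dir, Fintype.card_prod, Fintype.card_fin, Fintype.card_bool, nsmul_eq_mul]
  push_cast
  field_simp

theorem PP_sq {d : ℕ} (hd : 3 ≤ d) (f : Site d → ℝ) (x : Site d) :
    PP f x ^ 2 ≤ PP (fun y => f y ^ 2) x := by
  unfold PP
  have hd' : (0 : ℝ) < 2 * d := by positivity
  have h := sq_sum_le_card_mul_sum_sq (s := (Finset.univ : Finset (Dir d)))
    (f := fun e => f (x + uvec e))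
  rw [Finset.card_univ] at h
  simp only [Dir, Fintype.card_prod, Fintype.card_fin, Fintype.card_bool] at h
  push_cast at h
  rw [div_pow, div_le_div_iff₀ (by positivity) hd']
  calc (∑ e : Dir d, f (x + uvec e)) ^ 2 * (2 * d)
      ≤ ((d * 2) * ∑ e : Dir d, f (x + uvec e) ^ 2) * (2 * d) :=
        mul_le_mul_of_nonneg_right h hd'.le
    _ = _ := by ring

/-- One step of the weights, upper tail. -/
theorem W_arr {d : ℕ} (D : Set (Site d)) (a b : Site d → ℝ) (y : Site d) (p : Cf d)
    (h0 : 0 ≤ b y) (hab : a y ≤ b y) :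
    Real.exp (∑ z ∈ (arr D y p).1, a z + ((arr D y p).2.map b).sum) ≤
      Real.exp (∑ z ∈ p.1, a z + (p.2.map b).sum) * Real.exp (b y) := by
  rw [← Real.exp_add]
  apply Real.exp_le_exp.2
  unfold arr
  split_ifs with h1 h2
  · simp only [List.map_cons, List.sum_cons]
    linarith
  · linarith
  · simp only
    rw [Finset.sum_insert h1]
    linarith

theorem arr_mem {d : ℕ} (D : Set (Site d)) (y : Site d) (p : Cf d) (hp : ∀ x ∈ p.2, x ∈ D) :
    ∀ x ∈ (arr D y p).2, x ∈ D := by
  unfold arr
  split_ifs with h1 h2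
  · intro x hx
    simp only [List.mem_cons] at hx
    rcases hx with rfl | hx
    · exact h2
    · exact hp x hx
  · exact hp
  · exact hp

theorem steps_le {d : ℕ} (hd : 3 ≤ d) (D : Set (Site d)) (a b : Site d → ℝ) (x : Site d)
    (hx : ∀ e : Dir d, 0 ≤ b (x + uvec e) ∧ a (x + uvec e) ≤ b (x + uvec e))
    (F : Cf d → ℝ≥0∞)
    (hF : ∀ p : Cf d, (∀ x ∈ p.2, x ∈ D) →
      F p ≤ ENNReal.ofReal (Real.exp (∑ z ∈ p.1, a z + (p.2.map b).sum)))
    (k : ℕ) (p : Cf d) (hp : ∀ x ∈ p.2, x ∈ D) :
    steps D x k F p ≤ ENNReal.ofReal (Real.exp (∑ z ∈ p.1, a z + (p.2.map b).sum) *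
      PP (fun y => Real.exp (b y)) x ^ k) := by
  have hM0 : 0 ≤ PP (fun y => Real.exp (b y)) x := by
    unfold PP
    apply div_nonneg _ (by positivity)
    exact Finset.sum_nonneg fun e _ => (Real.exp_pos _).le
  set M := PP (fun y => Real.exp (b y)) x with hM
  induction k generalizing p with
  | zero => simpa [steps] using hF p hp
  | succ k ih =>
    simp only [steps]
    set W := Real.exp (∑ z ∈ p.1, a z + (p.2.map b).sum) with hW
    have hW0 : 0 ≤ W := (Real.exp_pos _).le
    have h1 : ∀ e : Dir d, steps D x k F (arr D (x + uvec e) p) ≤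
        ENNReal.ofReal (W * Real.exp (b (x + uvec e)) * M ^ k) := by
      intro e
      refine (ih _ (arr_mem D _ p hp)).trans ?_
      apply ENNReal.ofReal_le_ofReal
      apply mul_le_mul_of_nonneg_right _ (pow_nonneg hM0 _)
      exact W_arr D a b _ p (hx e).1 (hx e).2
    refine (avg_mono _ _ h1).trans ?_
    rw [avg_ofReal hd _ fun e => mul_nonneg (mul_nonneg hW0 (Real.exp_pos _).le)
      (pow_nonneg hM0 _)]
    apply ENNReal.ofReal_le_ofReal
    apply le_of_eq
    rw [← Finset.sum_mul, ← Finset.mul_sum, hM]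
    unfold PP
    ring

/-- **Part UPP.** -/
theorem t_UPP : S_UPP := by
  intro hG ν hν
  obtain ⟨C1, η1, hC1, hη0, hη1, hgen⟩ := hG ν hν
  refine ⟨1 + 4 * C1, η1 / 2, by linarith, by linarith, by linarith, ?_⟩
  intro d hd D a b hb n
  induction n with
  | zero =>
    intro A L hL
    cases L with
    | nil => simp
    | cons x L => simp
  | succ n ih =>
    intro A L hL
    cases L with
    | nil => simp
    | cons x L =>
      rw [Ph_succ_cons]
      have hxD : x ∈ D := hL x (by simp)
      have hLD : ∀ y ∈ L, y ∈ D := fun y hy => hL y (by simp [hy])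
      have hnbr := hb.nbr x hxD
      have hsup := hb.sup x hxD
      set M := PP (fun y => Real.exp (b y)) x with hM
      set W := Real.exp (∑ z ∈ A, a z + (L.map b).sum) with hW
      have hW0 : 0 ≤ W := (Real.exp_pos _).le
      have h1 : ∀ k, steps D x k (Ph ν D (fun B => ENNReal.ofReal (Real.exp (∑ y ∈ B, a y))) n)
          (A, L) ≤ ENNReal.ofReal (W * M ^ k) := by
        intro k
        refine steps_le hd D a b x (fun e => ⟨(hnbr e).1, (hnbr e).2.2⟩) _ ?_ k (A, L) hLD
        rintro ⟨A', L'⟩ h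
        exact ih A' L' h
      -- the bounds for `M`
      have hb1 : ∀ e : Dir d, b (x + uvec e) ≤ 1 := fun e => by
        have := (hnbr e).2.1
        linarith
      have hs0 : 0 ≤ M - 1 := by
        have : PP (fun _ => (1 : ℝ)) x ≤ M := by
          rw [hM]
          apply PP_mono
          intro e
          exact Real.one_le_exp (hnbr e).1
        rw [PP_const hd] at this
        linarith
      have hs1 : M ≤ 1 + (PP b x + PP (fun y => b y ^ 2) x) := by
        rw [hM]
        calc PP (fun y => Real.exp (b y)) x ≤ PP (fun y => 1 + (b y + b y ^ 2)) x := by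
              apply PP_mono
              intro e
              have := exp_le_quad1 _ (hnbr e).1 (hb1 e)
              linarith
          _ = _ := by rw [PP_add, PP_const hd, PP_add]
      have hPb0 : 0 ≤ PP b x := by
        have := PP_mono (fun _ => (0 : ℝ)) b x (fun e => (hnbr e).1)
        rwa [PP_const hd] at this
      have hPb2 : 0 ≤ PP (fun y => b y ^ 2) x := by
        have := PP_mono (fun _ => (0 : ℝ)) (fun y => b y ^ 2) x (fun e => sq_nonneg _)
        rwa [PP_const hd] at this
      have hPle : PP (fun y => b y ^ 2) x ≤ PP b x := by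
        apply PP_mono
        intro e
        nlinarith [(hnbr e).1, hb1 e]
      have hPη : PP b x ≤ η1 / 2 := by
        have := PP_mono b (fun _ => η1 / 2) x (fun e => (hnbr e).2.1)
        rwa [PP_const hd] at this
      have hs2 : M - 1 ≤ η1 := by linarith
      have hs3 : (M - 1) ^ 2 ≤ 4 * PP (fun y => b y ^ 2) x := by
        have h2 : M - 1 ≤ 2 * PP b x := by linarith
        calc (M - 1) ^ 2 ≤ (2 * PP b x) ^ 2 := pow_le_pow_left₀ hs0 h2 2
          _ = 4 * PP b x ^ 2 := by ring
          _ ≤ _ := mul_le_mul_of_nonneg_left (PP_sq hd b x) (by norm_num)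
      have hs4 : M - 1 + C1 * (M - 1) ^ 2 ≤ b x := by
        have : C1 * (M - 1) ^ 2 ≤ C1 * (4 * PP (fun y => b y ^ 2) x) :=
          mul_le_mul_of_nonneg_left hs3 (by linarith)
        nlinarith
      have hgen' := hgen (M - 1) hs0 hs2
      have hMe : 1 + (M - 1) = M := by ring
      rw [hMe] at hgen'
      have h2 : ENNReal.ofReal (M + C1 * (M - 1) ^ 2) ≤ ENNReal.ofReal (Real.exp (b x)) := by
        apply ENNReal.ofReal_le_ofReal
        have := Real.add_one_le_exp (b x)
        linarith
      unfold top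
      calc ∑' k : ℕ, ν k * steps D x k
            (Ph ν D (fun B => ENNReal.ofReal (Real.exp (∑ y ∈ B, a y))) n) (A, L)
          ≤ ∑' k : ℕ, ν k * ENNReal.ofReal (W * M ^ k) :=
            ENNReal.tsum_le_tsum fun k => mul_le_mul_right (h1 k) _
        _ = ENNReal.ofReal W * ∑' k : ℕ, ν k * ENNReal.ofReal (M ^ k) := by
            rw [← ENNReal.tsum_mul_left]
            refine tsum_congr fun k => ?_
            rw [ENNReal.ofReal_mul hW0]
            ring
        _ ≤ ENNReal.ofReal W * ENNReal.ofReal (Real.exp (b x)) :=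
            mul_le_mul_right (hgen'.trans h2) _
        _ = ENNReal.ofReal (Real.exp (∑ y ∈ A, a y + ((x :: L).map b).sum)) := by
            rw [← ENNReal.ofReal_mul hW0, hW, ← Real.exp_add]
            congr 2
            simp only [List.map_cons, List.sum_cons]
            ring

end Pool.Agent.H28.BD.Upp
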